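import Pool.Agent.H5.FAD.Sum
import Pool.Agent.H89.OCK.Stage

/-!
# One block of digits of one signal against one body (row 366)

`x + φ` is a variable with a signal `φ`, `N` the first digits of the signal, `D` more digits. If the
signal given `N` is in a translate of the body `A`, except on the event that `G` is false, and its
cell in the smaller body `V` determines `D`, then `D` is known from the cell of `x + φ` in `V` up to
the entropy of the cell of `x` in `V` given that in `A`.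
-/

set_option autoImplicit false

namespace Pool.CLO

open Matrix
open Finset Real
open Pool.Agent.H49.Ent Pool.Agent.H32.Dense Pool.STK Pool.KS6
open Pool.FAD Pool.OCK

variable {Ω S T β : Type} [Fintype Ω] {c : ℕ}

theorem law_iff (p : Ω → ℝ) {X : Ω → S} {Y : Ω → T} {s : S} {t : T}
    (h : ∀ ω', X ω' = s ↔ Y ω' = t) : law p X s = law p Y t := by
  unfold law
  refine Finset.sum_congr rfl fun ω' _ => ?_
  by_cases hh : X ω' = s
  · rw [if_pos hh, if_pos ((h ω').1 hh)]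
  · rw [if_neg hh, if_neg (fun a => hh ((h ω').2 a))]

/-- A variable which is constant where `G` is false sees only the values where `G` is true. -/
theorem CH_mask (p : Ω → ℝ) (G : Ω → Bool) (X : Ω → S) (x0 : S)
    (hX : ∀ ω, G ω = false → X ω = x0) (Y Y' : Ω → T) (hY : ∀ ω, G ω = true → Y ω = Y' ω) :
    CH p X (fun ω => (G ω, Y ω)) = CH p X (fun ω => (G ω, Y' ω)) := by
  classical
  have key : ∀ Z : Ω → T, CH p X (fun ω => (G ω, Z ω)) =
      -∑ ω, p ω * (Real.log (law p (fun ω => (X ω, (G ω, Z ω))) (X ω, (G ω, Z ω))) -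
        Real.log (law p (fun ω => (G ω, Z ω)) (G ω, Z ω))) := by
    intro Z
    unfold CH H
    simp only [mul_sub, Finset.sum_sub_distrib]
    ring
  rw [key, key]
  congr 1
  refine Finset.sum_congr rfl fun ω _ => ?_
  by_cases hG : G ω = true
  · have h1 : law p (fun ω => (X ω, (G ω, Y ω))) (X ω, (G ω, Y ω)) =
        law p (fun ω => (X ω, (G ω, Y' ω))) (X ω, (G ω, Y' ω)) := by
      refine law_iff p fun ω' => ?_
      simp only [Prod.mk.injEq]
      constructor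
      · rintro ⟨a, b, d⟩
        have e : G ω' = true := b.trans hG
        exact ⟨a, b, by rw [← hY ω' e, ← hY ω hG, d]⟩
      · rintro ⟨a, b, d⟩
        have e : G ω' = true := b.trans hG
        exact ⟨a, b, by rw [hY ω' e, hY ω hG, d]⟩
    have h2 : law p (fun ω => (G ω, Y ω)) (G ω, Y ω) =
        law p (fun ω => (G ω, Y' ω)) (G ω, Y' ω) := by
      refine law_iff p fun ω' => ?_
      simp only [Prod.mk.injEq]
      constructor
      · rintro ⟨b, d⟩
        have e : G ω' = true := b.trans hG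
        exact ⟨b, by rw [← hY ω' e, ← hY ω hG, d]⟩
      · rintro ⟨b, d⟩
        have e : G ω' = true := b.trans hG
        exact ⟨b, by rw [hY ω' e, hY ω hG, d]⟩
    rw [h1, h2]
  · have hG' : G ω = false := by simpa using hG
    have h3 : ∀ Z : Ω → T, law p (fun ω => (X ω, (G ω, Z ω))) (X ω, (G ω, Z ω)) =
        law p (fun ω => (G ω, Z ω)) (G ω, Z ω) := by
      intro Z
      refine law_iff p fun ω' => ?_
      simp only [Prod.mk.injEq]
      constructor
      · rintro ⟨_, b⟩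
        exact b
      · rintro ⟨b, d⟩
        have e : G ω' = false := b.trans hG'
        exact ⟨by rw [hX ω' e, hX ω hG'], b, d⟩
    rw [h3, h3, sub_self, sub_self]

/-- An integer with few values. -/
theorem CH_int {p : Ω → ℝ} (hp : IsLaw p) (D : Ω → ℤ) (W : Ω → T) (L : Ω → ℝ)
    (h : ∀ ω ω', 0 < p ω → 0 < p ω' → W ω = W ω' → |((D ω - D ω' : ℤ) : ℝ)| ≤ L ω) :
    CH p D W ≤ Ex p (fun ω => Real.log (2 * L ω + 1)) := by
  have h1 := CH_le_vec hp.nonneg hp.sum_one (fun ω (_ : Fin 1) => D ω) W L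
    (fun ω ω' a b e _ => h ω ω' a b e)
  have h2 : CH p D W ≤ CH p (fun ω (_ : Fin 1) => D ω) W := by
    refine CH_mono_left hp.nonneg fun ω ω' _ _ e => ?_
    simp only [Prod.mk.injEq] at e
    exact congrFun e.1 0
  have h3 : ((1 : ℕ) : ℝ) * Ex p (fun ω => Real.log (2 * L ω + 1)) =
      Ex p (fun ω => Real.log (2 * L ω + 1)) := by
    push_cast
    ring
  linarith

/-- The core of the local lemma. -/
theorem loc_core {p : Ω → ℝ} (hp : IsLaw p) (G : Ω → Bool) (D : Ω → ℤ) (U X1 X2 : Ω → Fin c → ℤ)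
    (N : Ω → β) (k : ℕ) (r M e : ℝ) (hr : 0 ≤ r) (hM : 0 ≤ M)
    (hk : ∀ ω ω', 0 < p ω → 0 < p ω' → N ω = N ω' → |((D ω - D ω' : ℤ) : ℝ)| ≤ 2 ^ k)
    (h2 : ∀ ω ω', 0 < p ω → 0 < p ω' → G ω = true → G ω' = true → N ω = N ω' → U ω = U ω' →
      ∀ i, |((X2 ω i - X2 ω' i : ℤ) : ℝ)| ≤ r)
    (hD : ∀ ω ω', 0 < p ω → 0 < p ω' → G ω = true → G ω' = true → N ω = N ω' → U ω = U ω' →
      X1 ω = X1 ω' → |((D ω - D ω' : ℤ) : ℝ)| ≤ M)
    (he : Ex p (fun ω => ind (G ω = false)) ≤ e) :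
    CH p D (fun ω => (U ω, N ω)) ≤ CH p X1 X2 +
      (Real.log 2 + c * Real.log (2 * r + 1) + Real.log (2 * M + 1) +
        e * ((k + 2) * Real.log 2)) := by
  classical
  set Y : Ω → (Fin c → ℤ) × β := fun ω => (U ω, N ω) with hY
  set D' : Ω → ℤ := fun ω => if G ω = true then D ω else 0 with hD'
  set T2 : Ω → Fin c → ℤ := fun ω => if G ω = true then X2 ω else 0 with hT2
  -- reveal `G`
  have a1 : CH p D Y ≤ CH p G Y + CH p D (fun ω => (G ω, Y ω)) := CH_le_add hp.nonneg D G Y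
  have a2 : CH p G Y ≤ Real.log 2 := by
    have h3 := CH_le_card hp.nonneg hp.sum_one G Y (fun _ => Finset.univ)
      (fun ω _ => Finset.mem_univ _)
    refine h3.trans ?_
    rw [Ex_const hp.sum_one]
    simp
  -- mask `D`
  have a3 := CH_le_add hp.nonneg D D' (fun ω => (G ω, Y ω))
  have a4 : CH p D (fun ω => (D' ω, (G ω, Y ω))) ≤ e * ((k + 2) * Real.log 2) := by
    refine (CH_int hp D _ (fun ω => if G ω = true then 0 else 2 ^ k) ?_).trans ?_
    · intro ω ω' b1 b2 h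
      simp only [hY, Prod.mk.injEq] at h
      obtain ⟨h3, h4, h5, h6⟩ := h
      by_cases hG : G ω = true
      · have hG' : G ω' = true := h4 ▸ hG
        simp only [hD'] at h3
        rw [if_pos hG, if_pos hG'] at h3
        rw [if_pos hG, h3]
        simp
      · rw [if_neg hG]
        exact hk ω ω' b1 b2 h6
    · have h6 : Ex p (fun ω => Real.log (2 * (if G ω = true then (0 : ℝ) else 2 ^ k) + 1)) ≤
          Ex p (fun ω => ((k + 2) * Real.log 2) * ind (G ω = false)) := by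
        refine Ex_mono hp.nonneg fun ω _ => ?_
        by_cases hG : G ω = true
        · rw [if_pos hG]
          unfold ind
          rw [if_neg (by rw [hG]; simp)]
          norm_num
        · rw [if_neg hG]
          unfold ind
          rw [if_pos (by simpa using hG), mul_one]
          have e1 : ((k : ℝ) + 2) * Real.log 2 = Real.log (2 ^ (k + 2)) := by
            rw [Real.log_pow]
            push_cast
            ring
          rw [e1]
          refine Real.log_le_log (by positivity) ?_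
          have : (1 : ℝ) ≤ 2 ^ k := one_le_pow₀ (by norm_num)
          rw [pow_add]
          nlinarith
      rw [Ex_smul] at h6
      have h7 := mul_le_mul_of_nonneg_left he
        (by positivity : (0 : ℝ) ≤ ((k : ℝ) + 2) * Real.log 2)
      linarith
  -- the cell in the large body
  have a5 := CH_le_add hp.nonneg D' T2 (fun ω => (G ω, Y ω))
  have a6 : CH p T2 (fun ω => (G ω, Y ω)) ≤ c * Real.log (2 * r + 1) := by
    have h3 := CH_le_vec hp.nonneg hp.sum_one T2 (fun ω => (G ω, Y ω)) (fun _ => r) (by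
      intro ω ω' b1 b2 h i
      simp only [hY, Prod.mk.injEq] at h
      obtain ⟨h4, h5, h6⟩ := h
      by_cases hG : G ω = true
      · have hG' : G ω' = true := h4 ▸ hG
        simp only [hT2]
        rw [if_pos hG, if_pos hG']
        exact h2 ω ω' b1 b2 hG hG' h6 h5 i
      · have hG' : ¬ G ω' = true := h4 ▸ hG
        simp only [hT2]
        rw [if_neg hG, if_neg hG']
        simpa using hr)
    rwa [Ex_const hp.sum_one] at h3
  have a7 : CH p D' (fun ω => (T2 ω, (G ω, Y ω))) = CH p D' (fun ω => (G ω, (X2 ω, Y ω))) := by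
    have h3 : CH p D' (fun ω => (T2 ω, (G ω, Y ω))) = CH p D' (fun ω => (G ω, (T2 ω, Y ω))) := by
      refine le_antisymm ?_ ?_
      · refine CH_mono_cond hp.nonneg fun ω ω' _ _ h => ?_
        simp only [Prod.mk.injEq] at h ⊢
        tauto
      · refine CH_mono_cond hp.nonneg fun ω ω' _ _ h => ?_
        simp only [Prod.mk.injEq] at h ⊢
        tauto
    rw [h3]
    refine CH_mask p G D' 0 ?_ _ _ ?_
    · intro ω h
      simp only [hD']
      rw [if_neg (by rw [h]; simp)]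
    · intro ω h
      simp only [hT2]
      rw [if_pos h]
  -- the cell in the small body
  have a8 := CH_le_add hp.nonneg D' X1 (fun ω => (G ω, (X2 ω, Y ω)))
  have a9 : CH p X1 (fun ω => (G ω, (X2 ω, Y ω))) ≤ CH p X1 X2 :=
    CH_mono_cond hp.nonneg fun ω ω' _ _ h => by
      simp only [Prod.mk.injEq] at h
      exact h.2.1
  have a10 : CH p D' (fun ω => (X1 ω, (G ω, (X2 ω, Y ω)))) ≤ Real.log (2 * M + 1) := by
    have h3 := CH_int hp D' (fun ω => (X1 ω, (G ω, (X2 ω, Y ω)))) (fun _ => M) (by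
      intro ω ω' b1 b2 h
      simp only [hY, Prod.mk.injEq] at h
      obtain ⟨h4, h5, h6, h7, h8⟩ := h
      by_cases hG : G ω = true
      · have hG' : G ω' = true := h5 ▸ hG
        simp only [hD']
        rw [if_pos hG, if_pos hG']
        exact hD ω ω' b1 b2 hG hG' h8 h7 h4
      · have hG' : ¬ G ω' = true := h5 ▸ hG
        simp only [hD']
        rw [if_neg hG, if_neg hG']
        simpa using hM)
    rwa [Ex_const hp.sum_one] at h3
  linarith

/-! ### Bodies -/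

/-- The entropy of `x` plus a uniform point of the body `V`, up to constants. -/
noncomputable def Ph (p : Ω → ℝ) (x : Ω → Fin c → ℝ) (V : Matrix (Fin c) (Fin c) ℝ) : ℝ :=
  lv V + CH p (fun ω => cl V (x ω)) (fun _ => ())

theorem Ph_mono {p : Ω → ℝ} (hp : IsLaw p) (x : Ω → Fin c → ℝ) {A B : Matrix (Fin c) (Fin c) ℝ}
    (hA : A.det ≠ 0) (hB : B.det ≠ 0) {a : ℝ} (ha : 0 ≤ a) (h : Inc a A B) :
    Ph p x A ≤ Ph p x B + Cc c a := by
  have h1 := CH_count hp.nonneg hp.sum_one (T := fun _ => A) (S := fun _ => B) x (fun _ => ())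
    (fun _ _ _ _ _ => rfl) (fun _ _ _ _ _ => rfl) (fun _ => hA) (fun _ => hB) ha (fun _ => h)
  rw [Ex_const hp.sum_one] at h1
  have h2 := CH_le_add hp.nonneg (fun ω => cl A (x ω)) (fun ω => cl B (x ω)) (fun _ => ())
  unfold Ph
  linarith

theorem Ph_up {p : Ω → ℝ} (hp : IsLaw p) (x : Ω → Fin c → ℝ) {A B : Matrix (Fin c) (Fin c) ℝ}
    (hA : A.det ≠ 0) {a : ℝ} (h : Inc a A B) :
    Ph p x B ≤ Ph p x A + (lv B - lv A) + c * Real.log (2 * (a + 1) + 1) := by
  have h1 := CH_inc hp.nonneg hp.sum_one (V := fun _ => A) (W := fun _ => B) x (fun _ => ())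
    (fun _ _ _ _ _ => rfl) (fun _ _ _ _ _ => rfl) (fun _ => hA) (fun _ => h)
  have h2 := CH_le_add hp.nonneg (fun ω => cl B (x ω)) (fun ω => cl A (x ω)) (fun _ => ())
  unfold Ph
  linarith

theorem DF_le_Ph {p : Ω → ℝ} (hp : IsLaw p) (x : Ω → Fin c → ℝ)
    (T V : Matrix (Fin c) (Fin c) ℝ) :
    DF p (fun _ => T) (fun _ => V) x (fun _ => ()) ≤ Ph p x V - Ph p x T := by
  have h2 := CH_le_add hp.nonneg (fun ω => cl T (x ω)) (fun ω => cl V (x ω)) (fun _ => ())
  unfold DF Ph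
  rw [Ex_const hp.sum_one]
  linarith

theorem Ph_le_DF {p : Ω → ℝ} (hp : IsLaw p) (x : Ω → Fin c → ℝ)
    {T V : Matrix (Fin c) (Fin c) ℝ} (hT : T.det ≠ 0) {a : ℝ} (h : Inc a T V) :
    Ph p x V - Ph p x T ≤ DF p (fun _ => T) (fun _ => V) x (fun _ => ()) +
      c * Real.log (2 * (a + 1) + 1) := by
  have h1 := CH_inc hp.nonneg hp.sum_one (V := fun _ => T) (W := fun _ => V) x (fun _ => ())
    (fun _ _ _ _ _ => rfl) (fun _ _ _ _ _ => rfl) (fun _ => hT) (fun _ => h)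
  have h2 := CH_chain hp.nonneg (fun ω => cl T (x ω)) (fun ω => cl V (x ω)) (fun _ => ())
  have h3 := CH_chain hp.nonneg (fun ω => cl V (x ω)) (fun ω => cl T (x ω)) (fun _ => ())
  have h4 : CH p (fun ω => (cl T (x ω), cl V (x ω))) (fun _ => ()) =
      CH p (fun ω => (cl V (x ω), cl T (x ω))) (fun _ => ()) := by
    refine le_antisymm ?_ ?_ <;>
    · refine CH_mono_left hp.nonneg fun ω ω' _ _ e => ?_
      simp only [Prod.mk.injEq] at e ⊢
      tauto
  unfold DF Ph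
  rw [Ex_const hp.sum_one]
  linarith

/-- **Submodularity.** -/
theorem Ph_pair {p : Ω → ℝ} (hp : IsLaw p) (x : Ω → Fin c → ℝ)
    {T A B : Matrix (Fin c) (Fin c) ℝ} (hT : T.det ≠ 0) (hA : A.det ≠ 0) (hB : B.det ≠ 0)
    {a : ℝ} (ha : 0 ≤ a) (hTA : Inc a T A) (hTB : Inc a T B) :
    ∃ S : Matrix (Fin c) (Fin c) ℝ, S.det ≠ 0 ∧ Inc c A S ∧ Inc c B S ∧
      Ph p x S + Ph p x T ≤ Ph p x A + Ph p x B +
        (Cp c a + c * Real.log (2 * (c * a + 1) + 1)) := by
  obtain ⟨S, h1, h2, h3, h4, h5⟩ := DF_pair hp.nonneg hp.sum_one (T := fun _ => T)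
    (A := fun _ => A) (B := fun _ => B) x (fun _ => ()) (fun _ _ _ _ _ => rfl)
    (fun _ _ _ _ _ => rfl) (fun _ _ _ _ _ => rfl) (fun _ => hT) (fun _ => hA) (fun _ => hB) ha
    (fun _ => hTA) (fun _ => hTB)
  obtain ⟨ω, hω⟩ : ∃ ω, 0 < p ω := by
    by_contra hcon
    push Not at hcon
    have : ∑ ω, p ω = 0 := Finset.sum_eq_zero fun ω _ => le_antisymm (hcon ω) (hp.nonneg ω)
    rw [hp.sum_one] at this
    norm_num at this
  refine ⟨S ω, h2 ω, h3 ω, h4 ω, ?_⟩
  have e1 : DF p (fun _ => T) S x (fun _ => ()) = DF p (fun _ => T) (fun _ => S ω) x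
      (fun _ => ()) := by
    have k1 : ∀ ω', 0 < p ω' → S ω' = S ω := fun ω' h => h1 ω' ω h hω rfl
    have k2 : Ex p (fun ω' => lv (S ω') - lv T) = Ex p (fun _ => lv (S ω) - lv T) := by
      unfold Ex
      refine Finset.sum_congr rfl fun ω' _ => ?_
      rcases (hp.nonneg ω').eq_or_lt with h0 | h0
      · rw [← h0, zero_mul, zero_mul]
      · dsimp only
        rw [k1 ω' h0]
    unfold DF
    rw [k2]
    congr 1
    refine le_antisymm ?_ ?_ <;>
    · refine CH_mono_cond hp.nonneg fun ω' ω'' a1 a2 e => ?_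
      simp only [Prod.mk.injEq] at e ⊢
      first
        | exact ⟨by rw [k1 ω' a1, k1 ω'' a2]; exact e.1, trivial⟩
        | exact ⟨by have := e.1; rw [k1 ω' a1, k1 ω'' a2] at this; exact this, trivial⟩
  rw [e1] at h5
  have hTS : Inc (c * a) T (S ω) := Inc.trans hA ha hTA (h3 ω)
  have h6 := Ph_le_DF hp x hT hTS
  have h7 := DF_le_Ph hp x T A
  have h8 := DF_le_Ph hp x T B
  linarith

/-! ### One column replaced -/

/-- The identity with a column replaced. -/
noncomputable def eK (k : Fin c) (q : Fin c → ℝ) : Matrix (Fin c) (Fin c) ℝ :=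
  fun i j => if j = k then q i else if i = j then 1 else 0

theorem eK_mul (k : Fin c) (q r : Fin c → ℝ) :
    eK k q * eK k r = eK k (fun i => q i * r k + if i = k then 0 else r i) := by
  ext i j
  rw [Matrix.mul_apply]
  unfold eK
  by_cases hj : j = k
  · simp only [hj, if_true]
    rw [← Finset.add_sum_erase _ _ (Finset.mem_univ k)]
    simp only [if_true]
    congr 1
    by_cases hi : i = k
    · rw [if_pos hi]
      refine Finset.sum_eq_zero fun l hl => ?_
      have hl' := Finset.ne_of_mem_erase hl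
      rw [if_neg hl', if_neg (by rw [hi]; exact hl'.symm), zero_mul]
    · rw [if_neg hi, Finset.sum_eq_single i]
      · rw [if_neg hi, if_pos rfl, one_mul]
      · intro l hl hli
        rw [if_neg (Finset.ne_of_mem_erase hl), if_neg hli.symm, zero_mul]
      · intro h
        exact absurd (Finset.mem_erase.2 ⟨hi, Finset.mem_univ i⟩) h
  · simp only [if_neg hj]
    rw [Finset.sum_eq_single j]
    · rw [if_neg hj, if_pos rfl, mul_one]
    · intro l _ hl
      rw [if_neg hl, mul_zero]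
    · intro h
      exact absurd (Finset.mem_univ j) h

theorem eK_one (k : Fin c) : eK k (fun i => if i = k then 1 else 0) = 1 := by
  ext i j
  unfold eK
  rw [Matrix.one_apply]
  by_cases hj : j = k
  · rw [if_pos hj, hj]
  · rw [if_neg hj]

theorem eK_inv {k : Fin c} {q : Fin c → ℝ} (hq : q k ≠ 0) :
    eK k q * eK k (fun i => if i = k then (q k)⁻¹ else -(q i / q k)) = 1 := by
  rw [eK_mul, ← eK_one k]
  congr 1
  funext i
  by_cases hi : i = k
  · simp only [hi, if_true]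
    field_simp
    ring
  · simp only [if_neg hi, if_true]
    field_simp
    ring

theorem eK_det {k : Fin c} (q : Fin c → ℝ) : (eK k q).det = q k := by
  have h1 : eK k q = (1 : Matrix (Fin c) (Fin c) ℝ).updateCol k q := by
    ext i j
    unfold eK
    rw [Matrix.updateCol_apply, Matrix.one_apply]
  rw [h1]
  have h2 := Matrix.cramer_apply (1 : Matrix (Fin c) (Fin c) ℝ) q k
  rw [← h2, Matrix.cramer_one]
  rfl

/-- `V` with the column `k` replaced by `v`. -/
noncomputable def upc (V : Matrix (Fin c) (Fin c) ℝ) (k : Fin c) (v : Fin c → ℝ) :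
    Matrix (Fin c) (Fin c) ℝ := V * eK k (V⁻¹ *ᵥ v)

theorem upc_col {V : Matrix (Fin c) (Fin c) ℝ} (hV : V.det ≠ 0) (k : Fin c) (v : Fin c → ℝ)
    (i : Fin c) : upc V k v i k = v i := by
  unfold upc
  have h1 : (V * eK k (V⁻¹ *ᵥ v)) i k = (V *ᵥ (V⁻¹ *ᵥ v)) i := by
    rw [Matrix.mul_apply, Matrix.mulVec, dotProduct]
    refine Finset.sum_congr rfl fun j _ => ?_
    unfold eK
    rw [if_pos rfl]
  rw [h1, Matrix.mulVec_mulVec, Matrix.mul_nonsing_inv _ (isUnit_iff_ne_zero.2 hV),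
    Matrix.one_mulVec]

theorem upc_ne {V : Matrix (Fin c) (Fin c) ℝ} (k : Fin c) (v : Fin c → ℝ)
    (i : Fin c) {j : Fin c} (hj : j ≠ k) : upc V k v i j = V i j := by
  unfold upc
  rw [Matrix.mul_apply, Finset.sum_eq_single j]
  · unfold eK
    rw [if_neg hj, if_pos rfl, mul_one]
  · intro l _ hl
    unfold eK
    rw [if_neg hj, if_neg hl, mul_zero]
  · intro h
    exact absurd (Finset.mem_univ j) h

theorem upc_det {V : Matrix (Fin c) (Fin c) ℝ} (k : Fin c) (v : Fin c → ℝ) :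
    (upc V k v).det = V.det * (V⁻¹ *ᵥ v) k := by
  unfold upc
  rw [Matrix.det_mul, eK_det]

theorem lv_upc {V : Matrix (Fin c) (Fin c) ℝ} (hV : V.det ≠ 0) (k : Fin c) (v : Fin c → ℝ)
    (h : (V⁻¹ *ᵥ v) k ≠ 0) : lv (upc V k v) = lv V + Real.log |(V⁻¹ *ᵥ v) k| := by
  unfold lv
  rw [upc_det, abs_mul, Real.log_mul (abs_ne_zero.2 hV) (abs_ne_zero.2 h)]

theorem upc_inv_mul {V : Matrix (Fin c) (Fin c) ℝ} (hV : V.det ≠ 0) (k : Fin c) (v : Fin c → ℝ)
    (h : (V⁻¹ *ᵥ v) k ≠ 0) : (upc V k v)⁻¹ * V =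
      eK k (fun i => if i = k then ((V⁻¹ *ᵥ v) k)⁻¹ else -((V⁻¹ *ᵥ v) i / (V⁻¹ *ᵥ v) k)) := by
  set q := V⁻¹ *ᵥ v with hq
  have h1 := eK_inv (k := k) (q := q) h
  have h2 : (upc V k v)⁻¹ = (eK k q)⁻¹ * V⁻¹ := by
    unfold upc
    rw [Matrix.mul_inv_rev]
  rw [h2, Matrix.mul_assoc, Matrix.nonsing_inv_mul _ (isUnit_iff_ne_zero.2 hV), Matrix.mul_one]
  exact Matrix.inv_eq_right_inv h1

/-- `V` is contained in twice the new body. -/
theorem inc_upc {V : Matrix (Fin c) (Fin c) ℝ} (hV : V.det ≠ 0) (k : Fin c) (v : Fin c → ℝ)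
    (h1 : ∀ i, |(V⁻¹ *ᵥ v) i| ≤ |(V⁻¹ *ᵥ v) k|) (h2 : 1 ≤ |(V⁻¹ *ᵥ v) k|) :
    Inc 2 V (upc V k v) := by
  set q := V⁻¹ *ᵥ v with hq
  have hk : q k ≠ 0 := by
    intro h
    rw [h, abs_zero] at h2
    norm_num at h2
  intro i
  rw [upc_inv_mul hV k v hk]
  rw [← Finset.add_sum_erase _ _ (Finset.mem_univ k)]
  have e1 : |eK k (fun i => if i = k then (q k)⁻¹ else -(q i / q k)) i k| ≤ 1 := by
    unfold eK
    rw [if_pos rfl]
    dsimp only
    by_cases hi : i = k
    · rw [if_pos hi, abs_inv]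
      exact inv_le_one_of_one_le₀ h2
    · rw [if_neg hi, abs_neg, abs_div]
      exact div_le_one_of_le₀ (h1 i) (abs_nonneg _)
  have e2 : ∑ j ∈ Finset.univ.erase k,
      |eK k (fun i => if i = k then (q k)⁻¹ else -(q i / q k)) i j| ≤ 1 := by
    have e3 : ∀ j ∈ Finset.univ.erase k,
        |eK k (fun i => if i = k then (q k)⁻¹ else -(q i / q k)) i j| =
          if i = j then 1 else 0 := by
      intro j hj
      unfold eK
      rw [if_neg (Finset.ne_of_mem_erase hj)]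
      split_ifs <;> simp
    rw [Finset.sum_congr rfl e3, Finset.sum_ite_eq]
    split_ifs <;> norm_num
  linarith

/-! ### The local lemma -/

/-- The digits of a signal. -/
noncomputable def dg (g : Ω → ℝ) (n : ℕ) (ω : Ω) : ℤ := ⌊(2 : ℝ) ^ n * g ω⌋

omit [Fintype Ω] in
theorem dg_of_le {m n : ℕ} (h : m ≤ n) (g : Ω → ℝ) (ω : Ω) :
    dg g m ω = dg g n ω / 2 ^ (n - m) := by
  unfold dg
  have h1 : ((2 : ℝ) ^ m * g ω) = (2 : ℝ) ^ n * g ω / ((2 ^ (n - m) : ℕ) : ℝ) := by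
    push_cast
    rw [eq_div_iff (by positivity)]
    have : (2 : ℝ) ^ n = 2 ^ m * 2 ^ (n - m) := by rw [← pow_add]; congr 1; omega
    rw [this]
    ring
  rw [h1, Int.floor_div_natCast]
  push_cast
  rfl

/-- The potential of a signal. -/
noncomputable def Phi (p : Ω → ℝ) (z : Ω → Fin c → ℝ) (g : Ω → ℝ) (n : ℕ) : ℝ :=
  (n * Real.log 2 - CH p (dg g n) (fun _ => ())) - CH p z (dg g n)

/-- The constant of the local lemma. -/
noncomputable def Cl (c : ℕ) (a R : ℝ) : ℝ :=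
  Real.log 2 + c * Real.log (2 * (2 * (2 * a) + 1 + 2 + 1) + 1) +
    Real.log (2 * (2 * R * (1 + a) + 1) + 1) + c * Real.log (2 * (2 + 1) + 1)

omit [Fintype Ω] in
theorem abs_sub_of_dg {g : Ω → ℝ} {n : ℕ} {ω ω' : Ω} (h : dg g n ω = dg g n ω') :
    |(2 : ℝ) ^ n * g ω - 2 ^ n * g ω'| ≤ 1 := Pool.FAD.abs_sub_of_floor h

/-- **LOC.** One block of digits of one signal against one body. -/
theorem loc {p : Ω → ℝ} (hp : IsLaw p) (x : Ω → Fin c → ℝ) (g : Ω → ℝ) (δ : Fin c → ℝ)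
    (F : Ω → Fin c → ℝ) {V : Matrix (Fin c) (Fin c) ℝ} (hV : V.det ≠ 0) {n ν : ℕ} (hn : n ≤ ν)
    {a e R : ℝ} (ha : 0 ≤ a) (hR : 0 ≤ R)
    (hF : Cn p (dg g n) (fun ω => V⁻¹ *ᵥ F ω) a e) (k : Fin c)
    (h1 : ∀ i, |(V⁻¹ *ᵥ (((2 : ℝ) ^ n)⁻¹ • δ)) i| ≤ |(V⁻¹ *ᵥ (((2 : ℝ) ^ n)⁻¹ • δ)) k|)
    (h2 : 1 ≤ |(V⁻¹ *ᵥ (((2 : ℝ) ^ n)⁻¹ • δ)) k|)
    (h3 : |(V⁻¹ *ᵥ (((2 : ℝ) ^ n)⁻¹ • δ)) k| ≤ 2 ^ (ν - n))
    (h4 : 2 ^ (ν - n) ≤ R * |(V⁻¹ *ᵥ (((2 : ℝ) ^ n)⁻¹ • δ)) k|) :
    Ph p x (upc V k (((2 : ℝ) ^ n)⁻¹ • δ)) ≤ Ph p x V +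
      (Phi p (fun ω => x ω + (g ω • δ + F ω)) g ν - Phi p (fun ω => x ω + (g ω • δ + F ω)) g n) +
      e * (((ν - n : ℕ) + 2) * Real.log 2) + Cl c a R := by
  classical
  set v : Fin c → ℝ := ((2 : ℝ) ^ n)⁻¹ • δ with hv
  set q : Fin c → ℝ := V⁻¹ *ᵥ v with hq
  set A := upc V k v with hA
  set z : Ω → Fin c → ℝ := fun ω => x ω + (g ω • δ + F ω) with hz
  obtain ⟨cen, hcen⟩ := hF
  have hqk : q k ≠ 0 := by
    intro h
    rw [h, abs_zero] at h2
    norm_num at h2
  have hAd : A.det ≠ 0 := by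
    rw [hA, upc_det]
    exact mul_ne_zero hV hqk
  have hinc : Inc 2 V A := inc_upc hV k v h1 h2
  have hδ : δ = (2 : ℝ) ^ n • v := by
    rw [hv, smul_smul, mul_inv_cancel₀ (by positivity), one_smul]
  have hVδ : ∀ i, (V⁻¹ *ᵥ δ) i = 2 ^ n * q i := by
    intro i
    rw [hδ, Matrix.mulVec_smul, Pi.smul_apply, smul_eq_mul]
  have hAv : A⁻¹ *ᵥ v = fun i => if i = k then (1 : ℝ) else 0 := by
    have e1 : A *ᵥ (fun i => if i = k then (1 : ℝ) else 0) = v := by
      funext i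
      have e2 := upc_col hV k v i
      rw [← hA] at e2
      rw [Matrix.mulVec, dotProduct, ← e2]
      simp
    calc A⁻¹ *ᵥ v = A⁻¹ *ᵥ (A *ᵥ (fun i => if i = k then (1 : ℝ) else 0)) := by rw [e1]
      _ = (fun i => if i = k then (1 : ℝ) else 0) := by
        rw [Matrix.mulVec_mulVec, Matrix.nonsing_inv_mul _ (isUnit_iff_ne_zero.2 hAd),
          Matrix.one_mulVec]
  have hAδ : ∀ i, (A⁻¹ *ᵥ δ) i = 2 ^ n * (if i = k then (1 : ℝ) else 0) := by
    intro i
    rw [hδ, Matrix.mulVec_smul, Pi.smul_apply, smul_eq_mul, hAv]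
  set G : Ω → Bool := fun ω => decide (∀ i, |(V⁻¹ *ᵥ F ω) i - cen (dg g n ω) i| ≤ a) with hG
  have hGG : ∀ ω ω', G ω = true → G ω' = true → dg g n ω = dg g n ω' →
      ∀ i, |(V⁻¹ *ᵥ F ω) i - (V⁻¹ *ᵥ F ω') i| ≤ 2 * a := by
    intro ω ω' b1 b2 b3 i
    have c1 := of_decide_eq_true b1 i
    have c2 := of_decide_eq_true b2 i
    rw [← b3] at c2
    rw [abs_le] at c1 c2 ⊢
    constructor <;> linarith [c1.1, c1.2, c2.1, c2.2]
  have hAF : ∀ ω ω', G ω = true → G ω' = true → dg g n ω = dg g n ω' →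
      ∀ i, |(A⁻¹ *ᵥ F ω) i - (A⁻¹ *ᵥ F ω') i| ≤ 2 * (2 * a) := by
    intro ω ω' b1 b2 b3 i
    have e1 : A⁻¹ *ᵥ F ω - A⁻¹ *ᵥ F ω' = (A⁻¹ * V) *ᵥ (V⁻¹ *ᵥ F ω - V⁻¹ *ᵥ F ω') := by
      rw [← Matrix.mulVec_sub, ← Matrix.mulVec_sub, Matrix.mulVec_mulVec, Matrix.mul_assoc,
        Matrix.mul_nonsing_inv _ (isUnit_iff_ne_zero.2 hV), Matrix.mul_one]
    have e2 : (A⁻¹ *ᵥ F ω) i - (A⁻¹ *ᵥ F ω') i =
        ∑ j, (A⁻¹ * V) i j * ((V⁻¹ *ᵥ F ω) j - (V⁻¹ *ᵥ F ω') j) := by
      have := congrFun e1 i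
      rw [Pi.sub_apply] at this
      rw [this]
      rfl
    rw [e2]
    calc |∑ j, (A⁻¹ * V) i j * ((V⁻¹ *ᵥ F ω) j - (V⁻¹ *ᵥ F ω') j)| ≤
          ∑ j, |(A⁻¹ * V) i j * ((V⁻¹ *ᵥ F ω) j - (V⁻¹ *ᵥ F ω') j)| :=
          Finset.abs_sum_le_sum_abs _ _
      _ ≤ ∑ j, |(A⁻¹ * V) i j| * (2 * a) := by
          refine Finset.sum_le_sum fun j _ => ?_
          rw [abs_mul]
          exact mul_le_mul_of_nonneg_left (hGG ω ω' b1 b2 b3 j) (abs_nonneg _)
      _ = (∑ j, |(A⁻¹ * V) i j|) * (2 * a) := (Finset.sum_mul _ _ _).symm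
      _ ≤ 2 * (2 * a) := mul_le_mul_of_nonneg_right (hinc i) (by positivity)
  have hdet : Det p (dg g ν) (dg g n) := by
    intro ω ω' _ _ h
    rw [dg_of_le hn, dg_of_le hn, h]
  -- the core
  have core := loc_core hp G (dg g ν) (fun ω => cl V (z ω)) (fun ω => cl V (x ω))
    (fun ω => cl A (x ω)) (dg g n) (ν - n) (2 * (2 * a) + 1 + 2 + 1) (2 * R * (1 + a) + 1) e
    (by positivity) (by positivity) (by
      intro ω ω' _ _ h
      rw [dg_of_le hn, dg_of_le hn] at h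
      have e1 := Int.emod_add_mul_ediv (dg g ν ω) (2 ^ (ν - n))
      have e2 := Int.emod_add_mul_ediv (dg g ν ω') (2 ^ (ν - n))
      have hp2 : (0 : ℤ) < 2 ^ (ν - n) := by positivity
      have e3 := Int.emod_nonneg (dg g ν ω) hp2.ne'
      have e4 := Int.emod_nonneg (dg g ν ω') hp2.ne'
      have e5 := Int.emod_lt_of_pos (dg g ν ω) hp2
      have e6 := Int.emod_lt_of_pos (dg g ν ω') hp2
      have e7 : |dg g ν ω - dg g ν ω'| ≤ 2 ^ (ν - n) := by
        rw [h] at e1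
        rw [abs_le]
        constructor <;> linarith
      exact_mod_cast e7) (by
      intro ω ω' _ _ b1 b2 b3 b4 i
      refine Pool.FAD.floor_sub_le ?_
      have c1 := sub_near hV hinc b4 i
      have c2 := hAF ω ω' b1 b2 b3 i
      have c3 := abs_sub_of_dg b3
      have c4 : ∀ ω, (A⁻¹ *ᵥ z ω) i = (A⁻¹ *ᵥ x ω) i +
          (g ω * (2 ^ n * (if i = k then (1 : ℝ) else 0)) + (A⁻¹ *ᵥ F ω) i) := by
        intro ω
        rw [hz]
        dsimp only
        rw [Matrix.mulVec_add, Matrix.mulVec_add, Matrix.mulVec_smul, Pi.add_apply, Pi.add_apply,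
          Pi.smul_apply, smul_eq_mul, hAδ]
      rw [c4, c4] at c1
      have c5 : |g ω * (2 ^ n * (if i = k then (1 : ℝ) else 0)) -
          g ω' * (2 ^ n * (if i = k then (1 : ℝ) else 0))| ≤ 1 := by
        by_cases hi : i = k
        · rw [if_pos hi, mul_one, mul_comm, mul_comm (g ω')]
          exact c3
        · rw [if_neg hi]
          norm_num
      rw [abs_le] at c1 c2 c5 ⊢
      constructor <;> linarith [c1.1, c1.2, c2.1, c2.2, c5.1, c5.2]) (by
      intro ω ω' _ _ b1 b2 b3 b4 b5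
      refine Pool.FAD.floor_sub_le ?_
      have c1 := Pool.FAD.abs_sub_of_floor (congrFun b4 k)
      have c6 := Pool.FAD.abs_sub_of_floor (congrFun b5 k)
      have c2 := hGG ω ω' b1 b2 b3 k
      have c4 : ∀ ω, (V⁻¹ *ᵥ z ω) k = (V⁻¹ *ᵥ x ω) k +
          (g ω * (2 ^ n * q k) + (V⁻¹ *ᵥ F ω) k) := by
        intro ω
        rw [hz]
        dsimp only
        rw [Matrix.mulVec_add, Matrix.mulVec_add, Matrix.mulVec_smul, Pi.add_apply, Pi.add_apply,
          Pi.smul_apply, smul_eq_mul, hVδ]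
      rw [c4, c4] at c1
      have c7 : |(g ω - g ω') * (2 ^ n * q k)| ≤ 2 + 2 * a := by
        rw [abs_le] at c1 c2 c6 ⊢
        constructor <;> linarith [c1.1, c1.2, c2.1, c2.2, c6.1, c6.2]
      rw [abs_mul, abs_mul, abs_of_pos (by positivity : (0 : ℝ) < 2 ^ n)] at c7
      have c8 : (2 : ℝ) ^ ν = 2 ^ (ν - n) * 2 ^ n := by rw [← pow_add]; congr 1; omega
      rw [← mul_sub, abs_mul, abs_of_pos (by positivity : (0 : ℝ) < 2 ^ ν), c8]
      have c9 : 0 ≤ (2 : ℝ) ^ n * |g ω - g ω'| := by positivity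
      calc (2 : ℝ) ^ (ν - n) * 2 ^ n * |g ω - g ω'| = 2 ^ (ν - n) * (2 ^ n * |g ω - g ω'|) := by
            ring
        _ ≤ R * |q k| * (2 ^ n * |g ω - g ω'|) := mul_le_mul_of_nonneg_right h4 c9
        _ = R * (|g ω - g ω'| * (2 ^ n * |q k|)) := by ring
        _ ≤ R * (2 + 2 * a) := mul_le_mul_of_nonneg_left c7 hR
        _ = 2 * R * (1 + a) := by ring) (by
      refine (Ex_mono hp.nonneg fun ω _ => ?_).trans hcen
      refine ind_le_ind fun h1 h2 => ?_
      rw [hG] at h1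
      dsimp only at h1
      rw [decide_eq_true h2] at h1
      exact absurd h1 (by simp))
  -- cells in the new body
  have b1 := CH_inc hp.nonneg hp.sum_one (V := fun _ => V) (W := fun _ => A) x (fun _ => ())
    (fun _ _ _ _ _ => rfl) (fun _ _ _ _ _ => rfl) (fun _ => hV) (fun _ => hinc)
  have b2 := CH_chain hp.nonneg (fun ω => cl V (x ω)) (fun ω => cl A (x ω)) (fun _ => ())
  have b3 := CH_chain hp.nonneg (fun ω => cl A (x ω)) (fun ω => cl V (x ω)) (fun _ => ())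
  have b4 : CH p (fun ω => (cl V (x ω), cl A (x ω))) (fun _ => ()) =
      CH p (fun ω => (cl A (x ω), cl V (x ω))) (fun _ => ()) := by
    refine le_antisymm ?_ ?_ <;>
    · refine CH_mono_left hp.nonneg fun ω ω' _ _ e => ?_
      simp only [Prod.mk.injEq] at e ⊢
      tauto
  have b5 : CH p (fun ω => cl V (x ω)) (fun ω => (cl A (x ω), ())) =
      CH p (fun ω => cl V (x ω)) (fun ω => cl A (x ω)) := by
    refine le_antisymm ?_ ?_ <;>
    · refine CH_mono_cond hp.nonneg fun ω ω' _ _ e => ?_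
      simp only [Prod.mk.injEq] at e ⊢
      tauto
  -- data processing
  have d1 : CH p (dg g ν) (fun ω => (z ω, dg g n ω)) ≤
      CH p (dg g ν) (fun ω => (cl V (z ω), dg g n ω)) := by
    refine CH_mono_cond hp.nonneg fun ω ω' _ _ e => ?_
    simp only [Prod.mk.injEq] at e ⊢
    exact ⟨by rw [e.1], e.2⟩
  have d2 := CH_chain hp.nonneg (dg g ν) z (dg g n)
  have d3 := CH_chain hp.nonneg z (dg g ν) (dg g n)
  have d4 : CH p (fun ω => (dg g ν ω, z ω)) (dg g n) = CH p (fun ω => (z ω, dg g ν ω)) (dg g n) := by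
    refine le_antisymm ?_ ?_ <;>
    · refine CH_mono_left hp.nonneg fun ω ω' _ _ e => ?_
      simp only [Prod.mk.injEq] at e ⊢
      tauto
  have d5 : CH p z (fun ω => (dg g ν ω, dg g n ω)) = CH p z (dg g ν) := by
    refine le_antisymm ?_ ?_
    · refine CH_mono_cond hp.nonneg fun ω ω' _ _ e => ?_
      exact (Prod.ext_iff.mp e).1
    · refine CH_mono_cond hp.nonneg fun ω ω' c1 c2 e => ?_
      exact Prod.ext e (hdet ω ω' c1 c2 e)
  have d6 := CH_chain hp.nonneg (dg g ν) (dg g n) (fun _ => ())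
  have d7 : CH p (fun ω => (dg g ν ω, dg g n ω)) (fun _ => ()) = CH p (dg g ν) (fun _ => ()) := by
    refine le_antisymm ?_ ?_
    · refine CH_mono_left hp.nonneg fun ω ω' c1 c2 e => ?_
      simp only [Prod.mk.injEq] at e
      exact Prod.ext e.1 (hdet ω ω' c1 c2 e.1)
    · refine CH_mono_left hp.nonneg fun ω ω' c1 c2 e => ?_
      simp only [Prod.mk.injEq] at e
      exact e.1.1
  have d8 : CH p (dg g ν) (fun ω => (dg g n ω, ())) = CH p (dg g ν) (dg g n) := by
    refine le_antisymm ?_ ?_ <;>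
    · refine CH_mono_cond hp.nonneg fun ω ω' _ _ e => ?_
      simp only [Prod.mk.injEq] at e ⊢
      tauto
  have f1 := lv_upc hV k v hqk
  rw [← hA] at f1
  have f2 : Real.log |q k| ≤ ((ν - n : ℕ) : ℝ) * Real.log 2 := by
    rw [← Real.log_pow]
    exact Real.log_le_log (by linarith) h3
  have f3 : ((ν - n : ℕ) : ℝ) = (ν : ℝ) - n := by
    rw [Nat.cast_sub hn]
  rw [f3] at f2 core ⊢
  unfold Ph Phi Cl
  linarith

end Pool.CLO
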