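import Pool.Agent.H21.QW.Leg
import Pool.Agent.H89.CLO.Loc

/-!
# The prices of the windows of one signal (row 366)

`S` is an integer signal with the digits of `y`, absorbed by `R`. `cst n` is the price of the window
of digits from `n`. The sum of the prices over a grid is small, and one column of a body may be
replaced by `2 ^ (-n) δ` at the price `cst n` if the pollution after `n` digits is in the body.
-/

set_option autoImplicit false

namespace Pool.CLO

open Matrix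
open Finset Real
open Pool.Agent.H49.Ent Pool.Agent.H32.Dense Pool.STK Pool.KS6
open Pool.FAD Pool.OCK Pool.RC21

section Mono

variable {Ω : Type} [Fintype Ω] {c : ℕ} {p : Ω → ℝ}

omit [Fintype Ω] in
theorem dg_det {n ν : ℕ} (hn : n ≤ ν) (g : Ω → ℝ) : Det p (dg g ν) (dg g n) := by
  intro ω ω' _ _ h
  rw [dg_of_le hn, dg_of_le hn, h]

/-- The digits of a block. -/
theorem CH_dg (hp : IsLaw p) (g : Ω → ℝ) {n ν : ℕ} (hn : n ≤ ν) :
    CH p (dg g ν) (dg g n) ≤ ((ν : ℝ) - n) * Real.log 2 := by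
  have h1 := CH_le_card hp.nonneg hp.sum_one (dg g ν) (dg g n)
    (fun w => Finset.Ico ((2 : ℤ) ^ (ν - n) * w) ((2 : ℤ) ^ (ν - n) * w + 2 ^ (ν - n))) (by
      intro ω _
      have h := dg_of_le hn g ω
      have e1 := Int.emod_add_mul_ediv (dg g ν ω) (2 ^ (ν - n))
      have hp2 : (0 : ℤ) < 2 ^ (ν - n) := by positivity
      have e3 := Int.emod_nonneg (dg g ν ω) hp2.ne'
      have e5 := Int.emod_lt_of_pos (dg g ν ω) hp2
      rw [← h] at e1
      rw [Finset.mem_Ico]
      constructor <;> linarith)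
  refine h1.trans (le_of_eq ?_)
  have h2 : ∀ w : ℤ, Real.log ((Finset.Ico ((2 : ℤ) ^ (ν - n) * w)
      ((2 : ℤ) ^ (ν - n) * w + 2 ^ (ν - n))).card : ℝ) = ((ν : ℝ) - n) * Real.log 2 := by
    intro w
    rw [Int.card_Ico]
    have e1 : (2 : ℤ) ^ (ν - n) * w + 2 ^ (ν - n) - 2 ^ (ν - n) * w = 2 ^ (ν - n) := by ring
    have e2 : ((2 : ℤ) ^ (ν - n)).toNat = 2 ^ (ν - n) := by
      have : ((2 : ℤ) ^ (ν - n)) = ((2 ^ (ν - n) : ℕ) : ℤ) := by push_cast; rfl
      rw [this, Int.toNat_natCast]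
    rw [e1, e2]
    push_cast
    rw [Real.log_pow, Nat.cast_sub hn]
  simp only [h2]
  exact Ex_const hp.sum_one _

theorem Phi_mono (hp : IsLaw p) (z : Ω → Fin c → ℝ) (g : Ω → ℝ) {n ν : ℕ} (hn : n ≤ ν) :
    Phi p z g n ≤ Phi p z g ν := by
  have h1 : CH p z (dg g ν) ≤ CH p z (dg g n) := CH_mono_cond hp.nonneg (dg_det hn g)
  have h2 := CH_dg hp g hn
  have h3 := CH_le_add hp.nonneg (dg g ν) (dg g n) (fun _ => ())
  have h4 : CH p (dg g ν) (fun ω => (dg g n ω, ())) ≤ CH p (dg g ν) (dg g n) := by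
    refine CH_mono_cond hp.nonneg fun ω ω' _ _ e => ?_
    exact (Prod.ext_iff.mp e).1
  unfold Phi
  linarith

/-- The total of the potential. -/
theorem Phi_total (hp : IsLaw p) (z : Ω → Fin c → ℝ) (g : Ω → ℝ)
    (h01 : ∀ ω, 0 < p ω → 0 ≤ g ω ∧ g ω < 1) {n : ℕ} {ε loss : ℝ}
    (hz : CH p z (fun _ => ()) ≤ CH p z (dg g n) + ε)
    (hl : n * Real.log 2 - loss ≤ CH p (dg g n) (fun _ => ())) :
    Phi p z g n - Phi p z g 0 ≤ ε + loss := by
  have h0 : ∀ ω, 0 < p ω → dg g 0 ω = 0 := by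
    intro ω hω
    unfold dg
    rw [pow_zero, one_mul, Int.floor_eq_zero_iff]
    exact ⟨(h01 ω hω).1, (h01 ω hω).2⟩
  have h1 : CH p (dg g 0) (fun _ => ()) ≤ 0 := by
    have := CH_int hp (dg g 0) (fun _ => ()) (fun _ => 0) (by
      intro ω ω' a b _
      rw [h0 ω a, h0 ω' b]
      simp)
    rw [Ex_const hp.sum_one] at this
    simpa using this
  have h2 : CH p z (dg g 0) ≤ CH p z (fun _ => ()) :=
    CH_mono_cond hp.nonneg fun ω ω' _ _ _ => rfl
  unfold Phi
  push_cast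
  linarith

end Mono

section Prod

variable {Γ Ω S T : Type} [Fintype Γ] [Fintype Ω] {q : Γ → ℝ} {p : Ω → ℝ} {c : ℕ}

theorem pr_law (hq : IsLaw q) (hp : IsLaw p) : IsLaw (pr q p) :=
  ⟨pr_nn hq.nonneg hp.nonneg, pr_one hq.sum_one hp.sum_one⟩

theorem law_snd (hq : IsLaw q) (f : Ω → S) (s : S) :
    law (pr q p) (fun w => f w.2) s = law p f s := by
  classical
  unfold law pr
  rw [Fintype.sum_prod_type]
  have h1 : ∀ γ : Γ, (∑ ω : Ω, if f ω = s then q γ * p ω else 0) =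
      q γ * ∑ ω, if f ω = s then p ω else 0 := by
    intro γ
    rw [Finset.mul_sum]
    refine Finset.sum_congr rfl fun ω _ => ?_
    split_ifs
    · rfl
    · rw [mul_zero]
  have h2 := Finset.sum_congr (s₁ := (Finset.univ : Finset Γ)) rfl (fun γ _ => h1 γ)
  refine Eq.trans ?_ (h2.trans ?_)
  · exact Finset.sum_congr rfl fun γ _ => Finset.sum_congr rfl fun ω _ => by
      by_cases h : f ω = s
      · simp only [h, if_true]
      · simp only [h, if_false]
  · rw [← Finset.sum_mul, hq.sum_one, one_mul]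

theorem law_fst (hp : IsLaw p) (f : Γ → S) (s : S) :
    law (pr q p) (fun w => f w.1) s = law q f s := by
  classical
  unfold law pr
  rw [Fintype.sum_prod_type]
  refine Finset.sum_congr rfl fun γ _ => ?_
  by_cases h : f γ = s
  · simp only [h, if_true]
    rw [← Finset.mul_sum, hp.sum_one, mul_one]
  · simp only [h, if_false, Finset.sum_const_zero]

theorem H_snd (hq : IsLaw q) (f : Ω → S) : H (pr q p) (fun w => f w.2) = H p f := by
  unfold H
  congr 1
  have h1 : ∀ w : Γ × Ω, law (pr q p) (fun w => f w.2) (f w.2) = law p f (f w.2) :=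
    fun w => law_snd hq f _
  simp only [h1]
  unfold pr
  rw [Fintype.sum_prod_type]
  have h2 : ∀ γ : Γ, ∑ ω : Ω, q γ * p ω * Real.log (law p f (f ω)) =
      q γ * ∑ ω, p ω * Real.log (law p f (f ω)) := by
    intro γ
    rw [Finset.mul_sum]
    exact Finset.sum_congr rfl fun ω _ => by ring
  simp only [h2]
  rw [← Finset.sum_mul, hq.sum_one, one_mul]

theorem H_fst (hp : IsLaw p) (f : Γ → S) : H (pr q p) (fun w => f w.1) = H q f := by
  unfold H
  congr 1
  have h1 : ∀ w : Γ × Ω, law (pr q p) (fun w => f w.1) (f w.1) = law q f (f w.1) :=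
    fun w => law_fst hp f _
  simp only [h1]
  unfold pr
  rw [Fintype.sum_prod_type]
  refine Finset.sum_congr rfl fun γ _ => ?_
  have h2 : ∀ ω : Ω, q γ * p ω * Real.log (law q f (f γ)) =
      p ω * (q γ * Real.log (law q f (f γ))) := fun ω => by ring
  simp only [h2]
  rw [← Finset.sum_mul, hp.sum_one, one_mul]

/-- The two factors are independent. -/
theorem CH_indep (hq : IsLaw q) (hp : IsLaw p) (f : Ω → S) :
    CH (pr q p) (fun w => f w.2) (fun w => w.1) = H p f := by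
  have hpr := pr_law hq hp
  have h1 : ∀ w : Γ × Ω, law (pr q p) (fun w => (f w.2, w.1)) (f w.2, w.1) =
      q w.1 * law p f (f w.2) := by
    classical
    intro w
    unfold law pr
    rw [Fintype.sum_prod_type, Finset.sum_eq_single w.1]
    · rw [Finset.mul_sum]
      refine Finset.sum_congr rfl fun ω _ => ?_
      simp only [Prod.mk.injEq, and_true]
      by_cases h : f ω = f w.2
      · rw [if_pos h, if_pos h]
      · rw [if_neg h, if_neg h, mul_zero]
    · intro γ _ hγ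
      refine Finset.sum_eq_zero fun ω _ => ?_
      simp only [Prod.mk.injEq]
      rw [if_neg (fun h => hγ h.2)]
    · intro h
      exact absurd (Finset.mem_univ _) h
  have h2 : ∀ w : Γ × Ω, law (pr q p) (fun w => w.1) w.1 = q w.1 := by
    classical
    intro w
    have := law_fst (q := q) hp (fun γ => γ) w.1
    rw [this]
    unfold law
    rw [Finset.sum_eq_single w.1]
    · rw [if_pos rfl]
    · intro γ _ hγ
      rw [if_neg hγ]
    · intro h
      exact absurd (Finset.mem_univ _) h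
  have h3 : CH (pr q p) (fun w => f w.2) (fun w => w.1) =
      -∑ w, pr q p w * (Real.log (law (pr q p) (fun w => (f w.2, w.1)) (f w.2, w.1)) -
        Real.log (law (pr q p) (fun w => w.1) w.1)) := by
    unfold CH H
    simp only [mul_sub, Finset.sum_sub_distrib]
    ring
  have h4 : -∑ w, pr q p w * (Real.log (law (pr q p) (fun w => (f w.2, w.1)) (f w.2, w.1)) -
        Real.log (law (pr q p) (fun w => w.1) w.1)) = H (pr q p) (fun w => f w.2) := by
    unfold H
    congr 1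
    refine Finset.sum_congr rfl fun w _ => ?_
    rw [h1, h2, law_snd hq f]
    rcases (hpr.nonneg w).eq_or_lt with h0 | h0
    · rw [← h0, zero_mul, zero_mul]
    · have h5 := pr_pos hq.nonneg hp.nonneg h0
      rw [Real.log_mul h5.1.ne' (law_pos hp.nonneg f h5.2).ne', add_sub_cancel_left]
  rw [h3, h4, H_snd hq f]

theorem Ph_snd (hq : IsLaw q) (hp : IsLaw p) (x : Ω → Fin c → ℝ)
    (V : Matrix (Fin c) (Fin c) ℝ) : Ph (pr q p) (fun w => x w.2) V = Ph p x V := by
  have hpr := pr_law hq hp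
  unfold Ph
  rw [CH_unit hpr.nonneg hpr.sum_one, CH_unit hp.nonneg hp.sum_one]
  exact congrArg _ (H_snd hq (fun ω => cl V (x ω)))

end Prod

section Upd

variable {c : ℕ}

theorem upc_eq {V : Matrix (Fin c) (Fin c) ℝ} (hV : V.det ≠ 0) (k : Fin c) (v : Fin c → ℝ) :
    upc V k v = V.updateCol k v := by
  ext i j
  rw [Matrix.updateCol_apply]
  by_cases hj : j = k
  · rw [if_pos hj, hj, upc_col hV]
  · rw [if_neg hj, upc_ne k v i hj]

/-- A small vector in the coordinates of a body which contains the axes. -/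
theorem small_coord {V : Matrix (Fin c) (Fin c) ℝ} {r a b : ℝ} (hr : 0 < r) (hb : 0 ≤ b)
    (hax : ∀ i j, |(V⁻¹ *ᵥ Pi.single i r) j| ≤ a) {w : Fin c → ℝ} (hw : ∀ i, |w i| ≤ b * r)
    (j : Fin c) : |(V⁻¹ *ᵥ w) j| ≤ c * (b * a) := by
  have h1 : ∀ i, |V⁻¹ j i| * r ≤ a := by
    intro i
    have := hax i j
    rw [Matrix.mulVec_single] at this
    simpa [abs_mul, abs_of_pos hr] using this
  have h2 : (V⁻¹ *ᵥ w) j = ∑ i, V⁻¹ j i * w i := rfl
  rw [h2]
  calc |∑ i, V⁻¹ j i * w i| ≤ ∑ i, |V⁻¹ j i * w i| := Finset.abs_sum_le_sum_abs _ _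
    _ ≤ ∑ _i : Fin c, b * a := by
        refine Finset.sum_le_sum fun i _ => ?_
        rw [abs_mul]
        calc |V⁻¹ j i| * |w i| ≤ |V⁻¹ j i| * (b * r) :=
              mul_le_mul_of_nonneg_left (hw i) (abs_nonneg _)
          _ = b * (|V⁻¹ j i| * r) := by ring
          _ ≤ b * a := mul_le_mul_of_nonneg_left (h1 i) hb
    _ = c * (b * a) := by simp

end Upd

section Win

variable {Γ Ω : Type} [Fintype Γ] [Fintype Ω] {q : Γ → ℝ} {p : Ω → ℝ} {c : ℕ}

/-- The digits of the increments `y`. -/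
noncomputable def dy (X : ℕ) (y : Γ → ℤ) (n : ℕ) (γ : Γ) : ℤ :=
  ⌊(2 : ℝ) ^ n * ((1 + (y γ : ℝ) / 2 ^ X) / 2)⌋

/-- The constant of the window lemma. -/
noncomputable def Cw (c : ℕ) (a : ℝ) : ℝ :=
  Cl c ((4 + 2 * c) * a) 2 + 2 * (Real.log a + Real.log 2)

/-- The price of the digits from `n` to `n + K`. -/
theorem Phi_step {Ω : Type} [Fintype Ω] {p : Ω → ℝ} (hp : IsLaw p) (z : Ω → Fin c → ℝ)
    (g : Ω → ℝ) {n ν : ℕ} (hn : n ≤ ν) :
    Phi p z g ν - Phi p z g n ≤ ((ν : ℝ) - n) * Real.log 2 := by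
  have h2 := CH_chain hp.nonneg (dg g ν) z (dg g n)
  have h3 := CH_chain hp.nonneg z (dg g ν) (dg g n)
  have h4 : CH p (fun ω => (dg g ν ω, z ω)) (dg g n) = CH p (fun ω => (z ω, dg g ν ω)) (dg g n) := by
    refine le_antisymm ?_ ?_ <;>
    · refine CH_mono_left hp.nonneg fun ω ω' _ _ e => ?_
      simp only [Prod.mk.injEq] at e ⊢
      tauto
  have h5 : CH p z (fun ω => (dg g ν ω, dg g n ω)) = CH p z (dg g ν) := by
    refine le_antisymm ?_ ?_
    · refine CH_mono_cond hp.nonneg fun ω ω' _ _ e => ?_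
      exact (Prod.ext_iff.mp e).1
    · refine CH_mono_cond hp.nonneg fun ω ω' c1 c2 e => ?_
      exact Prod.ext e (dg_det (p := p) hn g ω ω' c1 c2 e)
  have h6 := CH_nonneg hp.nonneg (dg g ν) (fun ω => (z ω, dg g n ω))
  have d6 := CH_chain hp.nonneg (dg g ν) (dg g n) (fun _ => ())
  have d7 : CH p (fun ω => (dg g ν ω, dg g n ω)) (fun _ => ()) = CH p (dg g ν) (fun _ => ()) := by
    refine le_antisymm ?_ ?_
    · refine CH_mono_left hp.nonneg fun ω ω' c1 c2 e => ?_
      simp only [Prod.mk.injEq] at e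
      exact Prod.ext e.1 (dg_det (p := p) hn g ω ω' c1 c2 e.1)
    · refine CH_mono_left hp.nonneg fun ω ω' c1 c2 e => ?_
      simp only [Prod.mk.injEq] at e
      exact e.1.1
  have d8 : CH p (dg g ν) (fun ω => (dg g n ω, ())) = CH p (dg g ν) (dg g n) := by
    refine le_antisymm ?_ ?_ <;>
    · refine CH_mono_cond hp.nonneg fun ω ω' _ _ e => ?_
      simp only [Prod.mk.injEq] at e ⊢
      tauto
  unfold Phi
  linarith

/-- **WIN.** The prices of the windows of one signal. -/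
theorem sig_win (hq : IsLaw q) (hp : IsLaw p) (R : Ω → Fin c → ℤ) (S : Γ → Fin c → ℤ) (y : Γ → ℤ)
    (F : Γ → Fin c → ℝ) (δ : Fin c → ℝ) (X K N : ℕ) {C ε loss : ℝ}
    (hy : ∀ γ, 0 < q γ → |y γ| < 2 ^ X)
    (near : ∀ γ, 0 < q γ → ∀ i, |(S γ i : ℝ) / 2 ^ X - ((y γ : ℝ) / 2 ^ X * δ i + F γ i)| ≤
      C / 2 ^ X)
    (habs : H (pr q p) (fun w => R w.2 + S w.1) ≤ H p R + ε)
    (ent : ((K * N + 1 : ℕ) : ℝ) * Real.log 2 - loss ≤ H q (dy X y (K * N + 1)))
    (bad : ℕ → ℝ) (hb0 : ∀ n, 0 ≤ bad n) (Gd : ℕ → (Fin c → ℝ) → Prop)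
    (hbad : ∀ n < N, Ex (dbl q (dy X y (K * n))) (fun z => ind (¬ Gd n (F z.1 - F z.2))) ≤ bad n) :
    ∃ cst : ℕ → ℝ, (∀ n, 0 ≤ cst n) ∧
      (∑ n ∈ range N, cst n ≤ ε + loss + ((K + 3) * Real.log 2) * ∑ n ∈ range N, bad n) ∧
      ∀ n < N, ∀ (B : Set (Fin c → ℝ)) (r : ℝ), 0 < r → C / 2 ^ X ≤ r →
        (∀ i, Pi.single i r ∈ B) →
        (∀ f, Gd n f → ∀ (V : Matrix (Fin c) (Fin c) ℝ) (a : ℝ), V.det ≠ 0 → 1 ≤ a →
          (∀ u ∈ B, ∀ i, |(V⁻¹ *ᵥ u) i| ≤ a) → ∀ i, |(V⁻¹ *ᵥ f) i| ≤ 4 * a) →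
        ∀ (V : Matrix (Fin c) (Fin c) ℝ) (a : ℝ), V.det ≠ 0 → 1 ≤ a →
          (∀ u ∈ B, ∀ i, |(V⁻¹ *ᵥ u) i| ≤ a) → ∀ k : Fin c,
          (∀ i, |(V⁻¹ *ᵥ (((2 : ℝ) ^ (K * n))⁻¹ • δ)) i| ≤
            |(V⁻¹ *ᵥ (((2 : ℝ) ^ (K * n))⁻¹ • δ)) k|) →
          1 ≤ |(V⁻¹ *ᵥ (((2 : ℝ) ^ (K * n))⁻¹ • δ)) k| →
          |(V⁻¹ *ᵥ (((2 : ℝ) ^ (K * n))⁻¹ • δ)) k| ≤ a * 2 ^ K →
          Ph p (fun ω i => (R ω i : ℝ) / 2 ^ X) (V.updateCol k (((2 : ℝ) ^ (K * n))⁻¹ • δ)) ≤
            Ph p (fun ω i => (R ω i : ℝ) / 2 ^ X) V + cst n + Cw c a := by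
  classical
  have hpr := pr_law hq hp
  have h2X : (0 : ℝ) < 2 ^ X := by positivity
  set x : Ω → Fin c → ℝ := fun ω i => (R ω i : ℝ) / 2 ^ X with hx
  set g : Γ × Ω → ℝ := fun w => (1 + (y w.1 : ℝ) / 2 ^ X) / 2 with hg
  set F' : Γ × Ω → Fin c → ℝ := fun w i => (S w.1 i : ℝ) / 2 ^ X - g w * ((2 : ℝ) • δ) i with hF'
  set z : Γ × Ω → Fin c → ℝ := fun w => x w.2 + (g w • ((2 : ℝ) • δ) + F' w) with hz
  have hzz : ∀ w, z w = fun i => ((R w.2 + S w.1) i : ℝ) / 2 ^ X := by
    intro w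
    funext i
    simp only [hz, hx, hF', Pi.add_apply, Pi.smul_apply, smul_eq_mul]
    push_cast
    ring
  have hlog2 : 0 < Real.log 2 := Real.log_pos (by norm_num)
  -- the price
  refine ⟨fun n => (Phi (pr q p) z g (K * (n + 1) + 1) - Phi (pr q p) z g (K * n + 1)) +
    ((K + 3) * Real.log 2) * bad n, ?_, ?_, ?_⟩
  · intro n
    have h1 := Phi_mono hpr z g (n := K * n + 1) (ν := K * (n + 1) + 1) (by
      have : K * n ≤ K * (n + 1) := Nat.mul_le_mul_left _ (Nat.le_succ n)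
      omega)
    have h2 := mul_nonneg (by positivity : (0 : ℝ) ≤ (K + 3) * Real.log 2) (hb0 n)
    linarith
  · rw [Finset.sum_add_distrib, ← Finset.mul_sum]
    have h1 := Finset.sum_range_sub (fun n => Phi (pr q p) z g (K * n + 1)) N
    rw [h1]
    have h2 := Phi_total hpr z g (n := K * N + 1) (ε := ε) (loss := loss) ?_ ?_ ?_
    · have h3 := Phi_mono hpr z g (n := 0) (ν := K * 0 + 1) (by omega)
      linarith
    · intro w hw
      have h4 := hy w.1 (pr_pos hq.nonneg hp.nonneg hw).1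
      have h5 : |(y w.1 : ℝ)| < 2 ^ X := by exact_mod_cast h4
      rw [abs_lt] at h5
      have h6 : -1 < (y w.1 : ℝ) / 2 ^ X := by
        rw [lt_div_iff₀ h2X]
        linarith [h5.1]
      have h7 : (y w.1 : ℝ) / 2 ^ X < 1 := by
        rw [div_lt_iff₀ h2X]
        linarith [h5.2]
      rw [hg]
      dsimp only
      constructor <;> linarith
    · -- total cost
      have h4 : CH (pr q p) z (fun w => w.1) ≤ CH (pr q p) z (dg g (K * N + 1)) := by
        refine CH_mono_cond hpr.nonneg fun w w' _ _ e => ?_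
        show ⌊(2 : ℝ) ^ (K * N + 1) * g w⌋ = ⌊(2 : ℝ) ^ (K * N + 1) * g w'⌋
        rw [hg]
        dsimp only
        rw [e]
      have h5 : H p R ≤ CH (pr q p) z (fun w => w.1) := by
        rw [← CH_indep hq hp R]
        refine CH_mono_left hpr.nonneg fun w w' _ _ e => ?_
        have e1 := (Prod.ext_iff.mp e).1
        have e2 := (Prod.ext_iff.mp e).2
        dsimp only at e1 e2
        rw [hzz, hzz] at e1
        funext i
        have e3 := congrFun e1 i
        have e4 : ((R w.2 + S w.1) i : ℝ) = ((R w'.2 + S w'.1) i : ℝ) := by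
          field_simp at e3
          exact e3
        have e5 : (R w.2 + S w.1) i = (R w'.2 + S w'.1) i := by exact_mod_cast e4
        rw [Pi.add_apply, Pi.add_apply, e2] at e5
        linarith
      have h6 : CH (pr q p) z (fun _ => ()) ≤ H (pr q p) (fun w => R w.2 + S w.1) := by
        rw [← CH_unit hpr.nonneg hpr.sum_one]
        refine CH_mono_left hpr.nonneg fun w w' _ _ e => ?_
        have e1 := (Prod.ext_iff.mp e).1
        dsimp only at e1
        rw [hzz, hzz, e1]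
      linarith
    · have h4 : H q (dy X y (K * N + 1)) = CH (pr q p) (dg g (K * N + 1)) (fun _ => ()) := by
        rw [CH_unit hpr.nonneg hpr.sum_one]
        exact (H_fst hp (dy X y (K * N + 1))).symm
      rw [← h4]
      exact ent
  · intro n hn B r hr0 hr hax hGd V a hV ha hB k h1 h2 h3
    set v : Fin c → ℝ := ((2 : ℝ) ^ (K * n))⁻¹ • δ with hv
    have hv2 : ((2 : ℝ) ^ (K * n + 1))⁻¹ • ((2 : ℝ) • δ) = v := by
      rw [hv, smul_smul, pow_succ, mul_inv, mul_assoc, inv_mul_cancel₀ (by norm_num), mul_one]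
    have ha0 : (0 : ℝ) < a := by linarith
    set a' : ℝ := (4 + 2 * c) * a with ha'
    have ha'0 : 0 ≤ a' := by positivity
    -- the centre
    have hcn : Cn (pr q p) (dg g (K * n)) (fun w => V⁻¹ *ᵥ F' w) a' (bad n) := by
      obtain ⟨cen, hc1, hc2⟩ := centre hq (dy X y (K * n)) (fun γ γ' => ¬ Gd n (F γ - F γ'))
      set F0 : Γ → Fin c → ℝ := fun γ i => (S γ i : ℝ) / 2 ^ X -
        (1 + (y γ : ℝ) / 2 ^ X) / 2 * ((2 : ℝ) • δ) i with hF0
      refine ⟨fun b => V⁻¹ *ᵥ F0 (cen b), ?_⟩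
      refine le_trans ?_ (hc2.trans (hbad n hn))
      have e0 : Ex q (fun γ => ind (¬ Gd n (F (cen (dy X y (K * n) γ)) - F γ))) =
          Ex (pr q p) (fun w => ind (¬ Gd n (F (cen (dy X y (K * n) w.1)) - F w.1))) := by
        rw [Ex_pr]
        unfold Ex
        refine Finset.sum_congr rfl fun γ _ => ?_
        dsimp only
        rw [← Finset.sum_mul, hp.sum_one, one_mul]
      rw [e0]
      refine Ex_mono hpr.nonneg fun w hw => ?_
      have hw1 := (pr_pos hq.nonneg hp.nonneg hw).1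
      refine ind_le_ind fun k1 k2 => k1 fun i => ?_
      set γ' := cen (dy X y (K * n) w.1) with hγ'
      show |(V⁻¹ *ᵥ F0 w.1) i - (V⁻¹ *ᵥ F0 γ') i| ≤ a'
      have hpos' : 0 < q γ' := (hc1 w.1 hw1).1
      have k5 := hGd _ k2 V a hV ha hB i
      set rd : Γ → Fin c → ℝ := fun γ i => (S γ i : ℝ) / 2 ^ X -
        ((y γ : ℝ) / 2 ^ X * δ i + F γ i) with hrd
      have k6 : ∀ γ, 0 < q γ → |(V⁻¹ *ᵥ rd γ) i| ≤ c * (1 * a) := by
        intro γ hγ
        refine small_coord hr0 zero_le_one (fun i' j => hB _ (hax i') j) ?_ i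
        intro i'
        refine (near γ hγ i').trans ?_
        rw [one_mul]
        exact hr
      have k7 : V⁻¹ *ᵥ F0 w.1 - V⁻¹ *ᵥ F0 γ' =
          V⁻¹ *ᵥ rd w.1 - V⁻¹ *ᵥ rd γ' - V⁻¹ *ᵥ (F γ' - F w.1) := by
        rw [← Matrix.mulVec_sub, ← Matrix.mulVec_sub, ← Matrix.mulVec_sub]
        congr 1
        funext j
        simp only [hF0, hrd, Pi.sub_apply, Pi.smul_apply, smul_eq_mul]
        ring
      have k8 := congrFun k7 i
      simp only [Pi.sub_apply] at k8
      rw [k8]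
      have k9 := k6 w.1 hw1
      have k10 := k6 γ' hpos'
      rw [abs_le] at k5 k9 k10 ⊢
      constructor <;> linarith [k5.1, k5.2, k9.1, k9.2, k10.1, k10.2]
    have hcn1 : Cn (pr q p) (dg g (K * n)) (fun w => V⁻¹ *ᵥ F' w) a' 1 := by
      obtain ⟨cen, -⟩ := hcn
      refine ⟨cen, ?_⟩
      have e1 : Ex (pr q p) (fun _ => (1 : ℝ)) = 1 := Ex_const hpr.sum_one _
      rw [← e1]
      refine Ex_mono hpr.nonneg fun w _ => ?_
      unfold ind
      split_ifs <;> norm_num
    obtain ⟨e, he0, he1, heb, hcne⟩ : ∃ e : ℝ, 0 ≤ e ∧ e ≤ 1 ∧ e ≤ bad n ∧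
        Cn (pr q p) (dg g (K * n + 1)) (fun w => V⁻¹ *ᵥ F' w) a' e := by
      rcases le_total (bad n) 1 with hb | hb
      · exact ⟨bad n, hb0 n, hb, le_rfl, hcn.comp hpr.nonneg (dg_det (by omega) g)⟩
      · exact ⟨1, zero_le_one, le_rfl, hb, hcn1.comp hpr.nonneg (dg_det (by omega) g)⟩
    -- the length of the window
    set ρ := |(V⁻¹ *ᵥ v) k| with hρ
    have hex : ∃ t : ℕ, ρ ≤ 2 ^ t := by
      obtain ⟨t, ht⟩ := pow_unbounded_of_one_lt ρ (by norm_num : (1 : ℝ) < 2)
      exact ⟨t, ht.le⟩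
    set t := Nat.find hex with ht
    have t1 : ρ ≤ 2 ^ t := Nat.find_spec hex
    have t2 : (2 : ℝ) ^ t ≤ 2 * ρ := by
      rcases Nat.eq_zero_or_pos t with h0 | h0
      · rw [h0, pow_zero]
        linarith
      · have h4 := Nat.find_min hex (m := t - 1) (by omega)
        push Not at h4
        have h5 : (2 : ℝ) ^ t = 2 ^ (t - 1) * 2 := by rw [← pow_succ]; congr 1; omega
        rw [h5]
        linarith
    have t3 : (t : ℝ) * Real.log 2 ≤ (K + 1) * Real.log 2 + Real.log a := by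
      have h4 : (2 : ℝ) ^ t ≤ 2 * (a * 2 ^ K) := t2.trans (by linarith)
      have h5 := Real.log_le_log (by positivity) h4
      rw [Real.log_pow, Real.log_mul (by norm_num) (by positivity), Real.log_mul ha0.ne'
        (by positivity), Real.log_pow] at h5
      linarith
    have hloc := loc hpr (fun w => x w.2) g ((2 : ℝ) • δ) F' hV (n := K * n + 1)
      (ν := K * n + 1 + t) (Nat.le_add_right _ _) ha'0 (by norm_num : (0 : ℝ) ≤ 2) hcne k
      (by rw [hv2]; exact h1) (by rw [hv2]; exact h2)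
      (by rw [hv2, Nat.add_sub_cancel_left]; exact t1)
      (by rw [hv2, Nat.add_sub_cancel_left]; exact t2)
    rw [hv2, Nat.add_sub_cancel_left, Ph_snd hq hp, Ph_snd hq hp, upc_eq hV] at hloc
    have hzd : (fun w => x w.2 + (g w • ((2 : ℝ) • δ) + F' w)) = z := rfl
    rw [hzd] at hloc
    -- the potential over the window
    have hla : 0 ≤ Real.log a := Real.log_nonneg ha
    have hP : Phi (pr q p) z g (K * n + 1 + t) - Phi (pr q p) z g (K * n + 1) ≤
        (Phi (pr q p) z g (K * (n + 1) + 1) - Phi (pr q p) z g (K * n + 1)) +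
          (Real.log 2 + Real.log a) := by
      rcases le_total t K with hk | hk
      · have h5 := Phi_mono hpr z g (n := K * n + 1 + t) (ν := K * (n + 1) + 1) (by
          rw [Nat.mul_succ]
          omega)
        linarith
      · have h6 : K * (n + 1) + 1 ≤ K * n + 1 + t := by
          rw [Nat.mul_succ]
          omega
        have h5 := Phi_step hpr z g h6
        have h7 : (((K * n + 1 + t : ℕ) : ℝ) - ((K * (n + 1) + 1 : ℕ) : ℝ)) = t - K := by
          push_cast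
          ring
        rw [h7, sub_mul] at h5
        linarith
    have hE : e * ((t + 2) * Real.log 2) ≤ ((K + 3) * Real.log 2) * bad n + Real.log a := by
      have h5 : (t + 2) * Real.log 2 ≤ (K + 3) * Real.log 2 + Real.log a := by linarith
      calc e * ((t + 2) * Real.log 2) ≤ e * ((K + 3) * Real.log 2 + Real.log a) :=
            mul_le_mul_of_nonneg_left h5 he0
        _ = e * ((K + 3) * Real.log 2) + e * Real.log a := by ring
        _ ≤ bad n * ((K + 3) * Real.log 2) + 1 * Real.log a := by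
            refine add_le_add (mul_le_mul_of_nonneg_right heb (by positivity))
              (mul_le_mul_of_nonneg_right he1 hla)
        _ = ((K + 3) * Real.log 2) * bad n + Real.log a := by ring
    unfold Cw
    rw [← ha']
    linarith

end Win

end Pool.CLO
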