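import Pool.Agent.H21.QW.Comb
import Pool.Agent.H89.CLO.Win
import Pool.Agent.H74.ROW.Main

/-!
# The record of the prices, in the form of the row theorem (row 366)
-/

set_option autoImplicit false

namespace Pool.CLO

open Matrix
open Finset Real
open Pool.Agent.H49.Ent Pool.Agent.H32.Dense Pool.STK Pool.KS6
open Pool.FAD Pool.OCK Pool.RC21 Pool.QC

variable {Γ Ω : Type} [Fintype Γ] [Fintype Ω] {q : Γ → ℝ} {p : Ω → ℝ} {c : ℕ}

/-- **WIN, row form.** The step is `(2 ^ K)⁻¹`; the signal is a combination of elements of `A`. -/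
theorem sig_row (hq : IsLaw q) (hp : IsLaw p) (R : Ω → Fin c → ℤ) {A : Set (Fin c → ℤ)} {ε : ℝ}
    (hε : 0 ≤ ε) (hA : Absb p R A ε) (S : Γ → Fin c → ℤ) (y : Γ → ℤ)
    (F : Γ → Fin c → ℝ) (δ : Fin c → ℝ) (X K N : ℕ) {C loss : ℝ}
    (hy : ∀ γ, 0 < q γ → |y γ| < 2 ^ X)
    (near : ∀ γ, 0 < q γ → ∀ i, |(S γ i : ℝ) / 2 ^ X - ((y γ : ℝ) / 2 ^ X * δ i + F γ i)| ≤
      C / 2 ^ X)
    (comb : ∃ (n : ℕ) (x : Fin n → Γ → Fin c → ℤ) (s : Fin n → ℤ),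
      (∀ i γ, 0 < q γ → x i γ ∈ A) ∧ (∀ γ, S γ = ∑ i, s i • x i γ) ∧ ∑ i, |(s i : ℝ)| ≤ C)
    (ent : ((K * N + 1 : ℕ) : ℝ) * Real.log 2 - loss ≤ H q (dy X y (K * N + 1)))
    (bad : ℕ → ℝ) (hb0 : ∀ n, 0 ≤ bad n) (Gd : ℕ → (Fin c → ℝ) → Prop)
    (hbad : ∀ n < N, Ex (dbl q (dy X y (K * n))) (fun z => ind (¬ Gd n (F z.1 - F z.2))) ≤ bad n) :
    ∃ cst : ℕ → ℝ, (∀ n, 0 ≤ cst n) ∧
      (∑ n ∈ range N, cst n ≤ (1 + C) * ε + loss +
        ((K + 3) * Real.log 2) * ∑ n ∈ range N, bad n) ∧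
      ∀ n < N, ∀ (B : Set (Fin c → ℝ)) (r : ℝ), 0 < r → C / 2 ^ X ≤ r →
        (∀ i, Pi.single i r ∈ B) →
        (∀ f, Gd n f → ∀ (V : Matrix (Fin c) (Fin c) ℝ) (a : ℝ), V.det ≠ 0 → 1 ≤ a →
          (∀ u ∈ B, Pool.ROW74.In a V u) → Pool.ROW74.In (4 * a) V f) →
        Pool.ROW74.Sig (Ph p (fun ω i => (R ω i : ℝ) / 2 ^ X)) (Cw c) B ((2 : ℝ) ^ K)
          (((2 : ℝ) ^ (K * n))⁻¹ • δ) (cst n) := by
  obtain ⟨n0, xs, s, c1, c2, c3⟩ := comb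
  have habs : H (pr q p) (fun w => R w.2 + S w.1) ≤ H p R + (1 + C) * ε := by
    have h1 := hA Γ inferInstance q hq n0 xs c1 s
    have h2 : (fun w : Γ × Ω => R w.2 + ∑ i, s i • xs i w.1) = fun w => R w.2 + S w.1 := by
      funext w
      rw [c2]
    rw [h2] at h1
    have h3 : (1 + ∑ i, |(s i : ℝ)|) * ε ≤ (1 + C) * ε :=
      mul_le_mul_of_nonneg_right (by linarith) hε
    linarith
  obtain ⟨cst, h1, h2, h3⟩ := sig_win hq hp R S y F δ X K N hy near habs ent bad hb0 Gd hbad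
  refine ⟨cst, h1, h2, ?_⟩
  intro n hn B r hr0 hr hax hGd V a hV ha hB k k1 k2 k3
  exact h3 n hn B r hr0 hr hax hGd V a hV ha hB k k1 k2 k3

/-- The constant is monotone. -/
theorem Cw_mono (c : ℕ) {a b : ℝ} (ha : 1 ≤ a) (hab : a ≤ b) : Cw c a ≤ Cw c b := by
  have h0 : (0 : ℝ) ≤ 4 + 2 * c := by positivity
  have h1 : (4 + 2 * (c : ℝ)) * a ≤ (4 + 2 * c) * b := mul_le_mul_of_nonneg_left hab h0
  have h2 : (0 : ℝ) ≤ (4 + 2 * c) * a := by positivity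
  have h3 : Real.log (2 * (2 * (2 * ((4 + 2 * (c : ℝ)) * a)) + 1 + 2 + 1) + 1) ≤
      Real.log (2 * (2 * (2 * ((4 + 2 * c) * b)) + 1 + 2 + 1) + 1) :=
    Real.log_le_log (by positivity) (by linarith)
  have h4 : Real.log (2 * (2 * 2 * (1 + (4 + 2 * (c : ℝ)) * a) + 1) + 1) ≤
      Real.log (2 * (2 * 2 * (1 + (4 + 2 * c) * b) + 1) + 1) :=
    Real.log_le_log (by positivity) (by linarith)
  have h5 : Real.log a ≤ Real.log b := Real.log_le_log (by linarith) hab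
  have h6 := mul_le_mul_of_nonneg_left h3 (Nat.cast_nonneg (α := ℝ) c)
  unfold Cw Cl
  linarith

theorem Cw_nonneg (c : ℕ) {a : ℝ} (ha : 1 ≤ a) : 0 ≤ Cw c a := by
  have h0 : (0 : ℝ) ≤ (4 + 2 * c) * a := by positivity
  have h3 : 0 ≤ Real.log (2 * (2 * (2 * ((4 + 2 * (c : ℝ)) * a)) + 1 + 2 + 1) + 1) :=
    Real.log_nonneg (by linarith)
  have h4 : 0 ≤ Real.log (2 * (2 * 2 * (1 + (4 + 2 * (c : ℝ)) * a) + 1) + 1) :=
    Real.log_nonneg (by linarith)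
  have h5 : 0 ≤ Real.log a := Real.log_nonneg ha
  have h6 : 0 ≤ Real.log 2 := Real.log_nonneg (by norm_num)
  have h7 : 0 ≤ Real.log (2 * (2 + 1) + 1) := Real.log_nonneg (by norm_num)
  have h8 : (0 : ℝ) ≤ c := Nat.cast_nonneg _
  have h9 := mul_nonneg h8 h3
  have h10 := mul_nonneg h8 h7
  unfold Cw Cl
  linarith

/-! ### (P1), (P2) -/

/-- Columns of `A` in `a V`. -/
theorem inc_of_in {A V : Matrix (Fin c) (Fin c) ℝ} {a : ℝ}
    (h : ∀ b, Pool.ROW74.In a V fun i => A i b) : Inc (c * a) A V := by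
  intro i
  calc ∑ j, |(V⁻¹ * A) i j| ≤ ∑ _j : Fin c, a := Finset.sum_le_sum fun j _ => h j i
    _ = c * a := by simp

/-- The constant of (P1) and (P2). -/
noncomputable def Cpq (c : ℕ) (a : ℝ) : ℝ :=
  Cc c (c * a) + c * Real.log (2 * (c * a + 1) + 1)

theorem ph_P1 (hp : IsLaw p) (x : Ω → Fin c → ℝ) (A V : Matrix (Fin c) (Fin c) ℝ) (a : ℝ)
    (hA : A.det ≠ 0) (hV : V.det ≠ 0) (ha : 1 ≤ a)
    (h : ∀ b, Pool.ROW74.In a V fun i => A i b) : Ph p x A ≤ Ph p x V + Cpq c a := by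
  have h1 := Ph_mono hp x hA hV (by positivity : (0 : ℝ) ≤ c * a) (inc_of_in h)
  have h2 : 0 ≤ (c : ℝ) * Real.log (2 * (c * a + 1) + 1) := by
    refine mul_nonneg (Nat.cast_nonneg _) (Real.log_nonneg ?_)
    have : (0 : ℝ) ≤ c * a := by positivity
    linarith
  unfold Cpq
  linarith

theorem Cc_nn (n : ℕ) {a : ℝ} (ha : 0 ≤ a) : 0 ≤ Cc n a := by
  have h8 : (0 : ℝ) ≤ n := Nat.cast_nonneg _
  have h1 : 0 ≤ Real.log (2 * ((n : ℝ) + 1) + 1) := Real.log_nonneg (by linarith)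
  have h2 : 0 ≤ Real.log (2 + 3 * ((n : ℝ) * a)) :=
    Real.log_nonneg (by have := mul_nonneg h8 ha; linarith)
  have h3 := mul_nonneg h8 h1
  have h4 := mul_nonneg h8 h2
  unfold Cc
  linarith

theorem ph_P2 (hp : IsLaw p) (x : Ω → Fin c → ℝ) (A V : Matrix (Fin c) (Fin c) ℝ) (a : ℝ)
    (hA : A.det ≠ 0) (_hV : V.det ≠ 0) (ha : 1 ≤ a)
    (h : ∀ b, Pool.ROW74.In a V fun i => A i b) :
    Ph p x V ≤ Ph p x A + (Real.log |V.det| - Real.log |A.det|) + Cpq c a := by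
  have h1 := Ph_up hp x hA (inc_of_in h)
  have h2 := Cc_nn c (by positivity : (0 : ℝ) ≤ c * a)
  unfold lv at h1
  unfold Cpq
  linarith

theorem Cpq_mono (c : ℕ) {a b : ℝ} (ha : 0 ≤ a) (hab : a ≤ b) : Cpq c a ≤ Cpq c b := by
  have h8 : (0 : ℝ) ≤ c := Nat.cast_nonneg _
  have h0 : (c : ℝ) * a ≤ c * b := mul_le_mul_of_nonneg_left hab h8
  have h00 : (0 : ℝ) ≤ c * a := mul_nonneg h8 ha
  have h01 : (c : ℝ) * (c * a) ≤ c * (c * b) := mul_le_mul_of_nonneg_left h0 h8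
  have h02 : (0 : ℝ) ≤ c * (c * a) := mul_nonneg h8 h00
  have h1 : Real.log (2 + 3 * ((c : ℝ) * (c * a))) ≤ Real.log (2 + 3 * (c * (c * b))) :=
    Real.log_le_log (by linarith) (by linarith)
  have h2 : Real.log (2 * ((c : ℝ) * a + 1) + 1) ≤ Real.log (2 * (c * b + 1) + 1) :=
    Real.log_le_log (by linarith) (by linarith)
  have h3 := mul_le_mul_of_nonneg_left h1 h8
  have h4 := mul_le_mul_of_nonneg_left h2 h8
  unfold Cpq Cc
  linarith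

theorem Cpq_nonneg (c : ℕ) {a : ℝ} (ha : 0 ≤ a) : 0 ≤ Cpq c a := by
  have h8 : (0 : ℝ) ≤ c := Nat.cast_nonneg _
  have h00 : (0 : ℝ) ≤ c * a := mul_nonneg h8 ha
  have h1 := Cc_nn c h00
  have h2 : 0 ≤ Real.log (2 * ((c : ℝ) * a + 1) + 1) := Real.log_nonneg (by linarith)
  have h3 := mul_nonneg h8 h2
  unfold Cpq
  linarith

/-! ### One constant for the row theorem -/

/-- The constant fed into the row theorem. -/
noncomputable def Ct (c : ℕ) (a : ℝ) : ℝ := Cw c (max a 1) + Cpq c (max a 1)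

theorem Ct_nonneg (c : ℕ) (a : ℝ) : 0 ≤ Ct c a := by
  have h1 := Cw_nonneg c (le_max_right a 1)
  have h2 := Cpq_nonneg c (zero_le_one.trans (le_max_right a 1))
  unfold Ct
  linarith

theorem Ct_mono (c : ℕ) : Monotone (Ct c) := by
  intro a b hab
  have h0 : max a 1 ≤ max b 1 := max_le_max hab le_rfl
  have h1 := Cw_mono c (le_max_right a 1) h0
  have h2 := Cpq_mono c (zero_le_one.trans (le_max_right a 1)) h0
  unfold Ct
  linarith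

theorem Cw_le_Ct (c : ℕ) {a : ℝ} (ha : 1 ≤ a) : Cw c a ≤ Ct c a := by
  have h2 := Cpq_nonneg c (zero_le_one.trans (le_max_right a 1))
  unfold Ct
  rw [max_eq_left ha] at h2 ⊢
  linarith

theorem Cpq_le_Ct (c : ℕ) {a : ℝ} (ha : 1 ≤ a) : Cpq c a ≤ Ct c a := by
  have h2 := Cw_nonneg c (le_max_right a 1)
  unfold Ct
  rw [max_eq_left ha] at h2 ⊢
  linarith

end Pool.CLO
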